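import Pool.Agent.helper74.FD.SpecG

/-! Row DB of project FD (MP_07c750_an). -/

set_option autoImplicit false

open scoped MatrixGroups ContDiff Topology UpperHalfPlane ComplexConjugate
open UpperHalfPlane MeasureTheory Filter Set

namespace Pool.Agent.FD

open Pool.Agent.RS Pool.Agent.MS
open Pool.Agent.EN (XG MG mkX mkM fl pr)

theorem DB_ent (a b c d : ℝ) (g : SL(2, ℝ)) (h00 : g.1 0 0 = a) (h01 : g.1 0 1 = b) (h10 : g.1 1 0 = c) (h11 : g.1 1 1 = d)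
    (g' : SL(2, ℝ)) (h00' : g'.1 0 0 = a) (h01' : g'.1 0 1 = b) (h10' : g'.1 1 0 = c) (h11' : g'.1 1 1 = d) : g = g' := by
  apply Subtype.ext
  ext i j
  fin_cases i <;> fin_cases j
  · exact h00.trans h00'.symm
  · exact h01.trans h01'.symm
  · exact h10.trans h10'.symm
  · exact h11.trans h11'.symm

theorem DB_mul (g h : SL(2, ℝ)) (i j : Fin 2) : (g * h).1 i j = g.1 i 0 * h.1 0 j + g.1 i 1 * h.1 1 j := by
  rw [Matrix.SpecialLinearGroup.coe_mul, Matrix.mul_apply, Fin.sum_univ_two]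

theorem DB_det (g : SL(2, ℝ)) : g.1 0 0 * g.1 1 1 - g.1 0 1 * g.1 1 0 = 1 := by
  have h := g.2
  rw [Matrix.det_fin_two] at h
  exact h

/-- decomposition of a matrix with positive last entry -/
theorem DB_dec (g : SL(2, ℝ)) (hpos : 0 < g.1 1 1) :
    ∃ s t : ℝ, g = nM (g.1 0 1 / g.1 1 1) * lM s * aM t := by
  have hd := DB_det g
  obtain ⟨a, haa⟩ : ∃ a, a = g.1 0 0 := ⟨_, rfl⟩
  obtain ⟨b, hb⟩ : ∃ b, b = g.1 0 1 := ⟨_, rfl⟩
  obtain ⟨c, hc⟩ : ∃ c, c = g.1 1 0 := ⟨_, rfl⟩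
  obtain ⟨d, hdd⟩ : ∃ d, d = g.1 1 1 := ⟨_, rfl⟩
  rw [← hdd] at hpos
  rw [← haa, ← hb, ← hc, ← hdd] at hd
  have e0 : -(2 * Real.log d) / 2 = -Real.log d := by ring
  have e1 : Real.exp (-(2 * Real.log d) / 2) = d⁻¹ := by
    rw [e0, Real.exp_neg, Real.exp_log hpos]
  have e2 : Real.exp (-(-(2 * Real.log d) / 2)) = d := by
    rw [e0, neg_neg, Real.exp_log hpos]
  refine ⟨c * d, -(2 * Real.log d), ?_⟩
  rw [← hb, ← hdd]
  refine DB_ent a b c d g haa.symm hb.symm hc.symm hdd.symm _ ?_ ?_ ?_ ?_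
  · rw [DB_mul, DB_mul, DB_mul]
    simp only [lM, aM, nM, Matrix.of_apply, Matrix.cons_val_zero, Matrix.cons_val_one, Matrix.cons_val', Matrix.cons_val_fin_one]
    simp only [e1, e2]
    field_simp
    linarith
  · rw [DB_mul, DB_mul, DB_mul]
    simp only [lM, aM, nM, Matrix.of_apply, Matrix.cons_val_zero, Matrix.cons_val_one, Matrix.cons_val', Matrix.cons_val_fin_one]
    simp only [e1, e2]
    field_simp
    ring
  · rw [DB_mul, DB_mul, DB_mul]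
    simp only [lM, aM, nM, Matrix.of_apply, Matrix.cons_val_zero, Matrix.cons_val_one, Matrix.cons_val', Matrix.cons_val_fin_one]
    simp only [e1, e2]
    field_simp
    ring
  · rw [DB_mul, DB_mul, DB_mul]
    simp only [lM, aM, nM, Matrix.of_apply, Matrix.cons_val_zero, Matrix.cons_val_one, Matrix.cons_val', Matrix.cons_val_fin_one]
    simp only [e1, e2]
    ring

theorem DB_proof (hDN : DN_stmt) (hGLC : RS.GLC_stmt) : DB_stmt := by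
  intro Γ W g hΓ hWo hWne hIv
  have hsc : SecondCountableTopology SL(2, ℝ) := hGLC.2.1
  obtain ⟨-, -, hcpt, haA, hnA, hlA, -, -, -, -, haa, -, hls, -, -, -, -, hna, hla, -⟩ := hGLC
  obtain ⟨h, hh⟩ := hWne
  obtain ⟨K, hK, hKc⟩ := hΓ.cocompact
  have h1 : ∀ n : ℕ, ∃ γ : Γ, (γ : SL(2, ℝ)) * h * aM (-(n : ℝ)) ∈ {x : SL(2, ℝ) | x • I ∈ K} := by
    intro n
    obtain ⟨γ, hγ⟩ := hKc ((h * aM (-(n : ℝ))) • I)
    refine ⟨γ, ?_⟩
    show ((γ : SL(2, ℝ)) * h * aM (-(n : ℝ))) • I ∈ K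
    rw [mul_assoc, mul_smul]
    exact hγ
  choose γ hγ using h1
  obtain ⟨k, -, φ, hφ, hlim⟩ := (hcpt K hK).tendsto_subseq hγ
  obtain ⟨γ0, hγ0⟩ := hDN Γ g hΓ
  have h2 : ∃ γ1 : Γ, (k⁻¹ * ((γ1 : SL(2, ℝ)) * g)).1 1 1 ≠ 0 := by
    by_cases h0 : (k⁻¹ * g).1 1 1 = 0
    · refine ⟨γ0, ?_⟩
      have e : k⁻¹ * ((γ0 : SL(2, ℝ)) * g) = (k⁻¹ * g) * (g⁻¹ * (γ0 : SL(2, ℝ)) * g) := by group
      rw [e, DB_mul (k⁻¹ * g), h0, zero_mul, add_zero]
      refine mul_ne_zero ?_ hγ0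
      intro h3
      have := DB_det (k⁻¹ * g)
      rw [h0, h3] at this
      norm_num at this
    · refine ⟨1, ?_⟩
      rw [Subgroup.coe_one, one_mul]
      exact h0
  obtain ⟨γ1, hγ1⟩ := h2
  obtain ⟨m, hm⟩ : ∃ m : ℕ → SL(2, ℝ), m = fun n => ((γ n : SL(2, ℝ)) * h * aM (-(n : ℝ)))⁻¹ * ((γ1 : SL(2, ℝ)) * g) := ⟨_, rfl⟩
  have hmlim : Tendsto (fun n => m (φ n)) atTop (𝓝 (k⁻¹ * ((γ1 : SL(2, ℝ)) * g))) := by
    rw [hm]
    exact (hlim.inv).mul_const _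
  have hent : ∀ i j : Fin 2, Continuous fun x : SL(2, ℝ) => x.1 i j := by
    intro i j
    exact (continuous_apply j).comp ((continuous_apply i).comp continuous_subtype_val)
  have h11 : Tendsto (fun n => (m (φ n)).1 1 1) atTop (𝓝 ((k⁻¹ * ((γ1 : SL(2, ℝ)) * g)).1 1 1)) :=
    ((hent 1 1).tendsto _).comp hmlim
  have h01 : Tendsto (fun n => (m (φ n)).1 0 1) atTop (𝓝 ((k⁻¹ * ((γ1 : SL(2, ℝ)) * g)).1 0 1)) :=
    ((hent 0 1).tendsto _).comp hmlim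
  have hx := h01.div h11 hγ1
  have hexp : Tendsto (fun n => Real.exp (-((φ n : ℕ) : ℝ))) atTop (𝓝 0) :=
    Real.tendsto_exp_neg_atTop_nhds_zero.comp (tendsto_natCast_atTop_atTop.comp hφ.tendsto_atTop)
  have hx0 := hexp.mul hx
  rw [zero_mul] at hx0
  have hn0 : nM 0 = (1 : SL(2, ℝ)) := by
    refine DB_ent 1 0 0 1 _ ?_ ?_ ?_ ?_ _ ?_ ?_ ?_ ?_ <;> simp [nM]
  have hw : Tendsto (fun n => h * nM (Real.exp (-((φ n : ℕ) : ℝ)) * ((m (φ n)).1 0 1 / (m (φ n)).1 1 1))) atTop (𝓝 h) := by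
    have h3 := (((hnA.tendsto 0).comp hx0).const_mul h)
    rw [hn0, mul_one] at h3
    exact h3
  have hev1 := hw.eventually (hWo.mem_nhds hh)
  have hev2 := h11.eventually_ne hγ1
  obtain ⟨n, hn1, hn2⟩ := (hev1.and hev2).exists
  obtain ⟨N, hN⟩ : ∃ N : ℕ, N = φ n := ⟨_, rfl⟩
  rw [← hN] at hn1 hn2
  have hl0 : lM 0 = (1 : SL(2, ℝ)) := by
    refine DB_ent 1 0 0 1 _ ?_ ?_ ?_ ?_ _ ?_ ?_ ?_ ?_ <;> simp [lM]
  have ha0 : aM 0 = (1 : SL(2, ℝ)) := by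
    refine DB_ent 1 0 0 1 _ ?_ ?_ ?_ ?_ _ ?_ ?_ ?_ ?_ <;> simp [aM]
  have hmN : (γ N : SL(2, ℝ)) * h * aM (-(N : ℝ)) * m N = (γ1 : SL(2, ℝ)) * g := by
    rw [hm]
    exact mul_inv_cancel_left _ _
  have key : ∀ x s t : ℝ, (nM x * lM s * aM t) * (lM (-(Real.exp t * s)) * aM (N - t)) = aM N * nM (Real.exp (-(N : ℝ)) * x) := by
    intro x s t
    have e1 : aM t * lM (-(Real.exp t * s)) = lM (-s) * aM t := by
      rw [hla (-s) t]
      congr 2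
      ring
    have e2 : aM t * aM (N - t) = aM (N : ℝ) := by
      rw [← haa]
      congr 1
      ring
    have e3 : lM s * lM (-s) = 1 := by
      rw [← hls, add_neg_cancel, hl0]
    calc (nM x * lM s * aM t) * (lM (-(Real.exp t * s)) * aM (N - t))
        = nM x * lM s * (aM t * lM (-(Real.exp t * s))) * aM (N - t) := by simp only [mul_assoc]
      _ = nM x * (lM s * lM (-s)) * (aM t * aM (N - t)) := by rw [e1]; simp only [mul_assoc]
      _ = nM x * aM N := by rw [e2, e3, mul_one]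
      _ = aM N * nM (Real.exp (-(N : ℝ)) * x) := hna x N
  have hprod : ∀ x s t : ℝ, (γ N : SL(2, ℝ)) * h * aM (-(N : ℝ)) * ((nM x * lM s * aM t) * (lM (-(Real.exp t * s)) * aM (N - t)))
      = (γ N : SL(2, ℝ)) * (h * nM (Real.exp (-(N : ℝ)) * x)) := by
    intro x s t
    have e4 : aM (-(N : ℝ)) * aM (N : ℝ) = 1 := by
      rw [← haa, neg_add_cancel, ha0]
    rw [key]
    calc (γ N : SL(2, ℝ)) * h * aM (-(N : ℝ)) * (aM N * nM (Real.exp (-(N : ℝ)) * x))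
        = (γ N : SL(2, ℝ)) * h * (aM (-(N : ℝ)) * aM N) * nM (Real.exp (-(N : ℝ)) * x) := by simp only [mul_assoc]
      _ = (γ N : SL(2, ℝ)) * (h * nM (Real.exp (-(N : ℝ)) * x)) := by rw [e4, mul_one, mul_assoc]
  rcases lt_or_gt_of_ne hn2 with hneg | hpos
  · have h4 : 0 < (-(m N)).1 1 1 := by
      show 0 < -(m N).1 1 1
      linarith
    obtain ⟨s, t, hst⟩ := DB_dec _ h4
    have e5 : (-(m N)).1 0 1 / (-(m N)).1 1 1 = (m N).1 0 1 / (m N).1 1 1 := by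
      show -(m N).1 0 1 / -(m N).1 1 1 = _
      rw [neg_div_neg_eq]
    rw [e5] at hst
    refine ⟨-(Real.exp t * s), N - t, ?_⟩
    have h5 := hprod ((m N).1 0 1 / (m N).1 1 1) s t
    rw [← hst, ← mul_assoc, mul_neg, hmN, neg_mul] at h5
    have h6 : (γ N : SL(2, ℝ)) * (h * nM (Real.exp (-(N : ℝ)) * ((m N).1 0 1 / (m N).1 1 1))) ∈ W := (hIv.1 _ _).2 hn1
    rw [← h5, hIv.2, mul_assoc, hIv.1, ← mul_assoc] at h6
    exact h6
  · obtain ⟨s, t, hst⟩ := DB_dec _ hpos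
    refine ⟨-(Real.exp t * s), N - t, ?_⟩
    have h5 := hprod ((m N).1 0 1 / (m N).1 1 1) s t
    rw [← hst, ← mul_assoc, hmN] at h5
    have h6 : (γ N : SL(2, ℝ)) * (h * nM (Real.exp (-(N : ℝ)) * ((m N).1 0 1 / (m N).1 1 1))) ∈ W := (hIv.1 _ _).2 hn1
    rw [← h5, mul_assoc, hIv.1, ← mul_assoc] at h6
    exact h6

end Pool.Agent.FD
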